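import Pool.Agent.Work.MP_8ec85b_lc.Main

/-!
MP_8ec85b_lc, Q1 (converse to the infinite-attribute transfer theorem).

For projection- and embedding-closed classes in which the number of relevant variables is
polynomially bounded in the size, the converse asked for in Q1 holds if and only if every such
class that is learnable in the ordinary mistake-bound model over the cube is attribute-efficiently
learnable.

Proof idea. If `G` is learnable in the mistake-bound model, let the paired class consist of the
functions `[z (i, true) ≠ z (i, false) for all i] ∧ g (z (·, true))`, with `g` in `G` and the slots
`z` replaced by constants or distinct variables. An attribute-efficient learner for the paired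
class gives one for `G` (present a vector together with its complement). The paired class is
learnable in the infinite-attribute model: the first positive example contains exactly one
variable of each relevant pair; the learner of `G` is run on the attributes `u ∈ x`, `u ∉ x`
(`u` in the first positive example), guarded by constraints that are learned by elimination, and
is restarted with larger and larger budgets, since it may be given wrong labels a bounded number
of times.
-/

namespace Pool.Agent.Results.MP_8ec85b_lc.Equivalence

open Pool.Agent.Work.MP_8ec85b_lc

theorem result :
    (∀ C : ConceptClass, C.EmbeddingClosed → C.ProjectionClosed → C.FewRelevant →
      C.IALearnable → C.AELearnable) ↔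
    (∀ C : ConceptClass, C.EmbeddingClosed → C.ProjectionClosed → C.FewRelevant →
      C.MBLearnable → C.AELearnable) := by
  constructor
  · intro h G hE hP hR hM
    exact ae_of_paired G hP hR (h (paired G) (paired_embedding G) (paired_projection G)
      (paired_fewRelevant G) (ia_paired G hE hP hM))
  · intro h C hE hP hR hI
    exact h C hE hP hR (mb_of_ia C hI)

end Pool.Agent.Results.MP_8ec85b_lc.Equivalence
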