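import Pool.Agent.Work.MP_8ec85b_lc_or.Collapse

/-!
MP_8ec85b_lc, Q1 (converse to the infinite-attribute transfer theorem), relative to an oracle.

There is an oracle `O` such that every concept class in which the number of relevant variables is
polynomially bounded in the size, and which is learnable in the infinite-attribute model by an
algorithm with the oracle, is attribute-efficiently learnable by an algorithm with the oracle
(whether or not the class is closed under projections and embeddings). So no relativizing argument
refutes the converse asked for in Q1.

Proof idea. Let `A` be a learner of the infinite-attribute model. For every set `V` of variables
of the cube there is an expert: it runs `A` on the examples restricted to `V`; the name of
variable `i` is a binary string of length `O (log i)`. The expert of the set of all relevant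
variables makes a number of mistakes polynomial in the size. The experts get weights which depend
on the length of their names; a mistake of an expert halves its weight, and the weighted majority
vote makes a number of mistakes polynomial in the size and linear in `log n`. A question to the
oracle contains the learner `A`, the list of mistakes, the example and a number in unary, and the
oracle answers with the vote of the experts, where the experts may themselves ask the oracle
questions of size less than this number. The number is constant during a period; the master
learner begins a new period, with a new number, whenever it has made more mistakes in a period
than it is allowed to. When the number of the period has reached the size of the target, the
number in the question is so large that the expert of the relevant variables is simulated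
correctly, and there is no further period.
-/

namespace Pool.Agent.Results.MP_8ec85b_lc.OracleCollapse

open Pool.Agent.Work.MP_8ec85b_lc Pool.Agent.Work.MP_8ec85b_lc_or

theorem result :
    ∃ O : D → Bool, ∀ C : ConceptClass, C.FewRelevant → IALearnableO O C → AELearnableO O C :=
  ⟨orc, fun C hR hI => ae_of_ia C hR hI⟩

end Pool.Agent.Results.MP_8ec85b_lc.OracleCollapse
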