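import Pool.Agent.Work.MP_8ec85b_lc_or.Main

/-!
MP_8ec85b_lc, Q1 (converse to the infinite-attribute transfer theorem), relative to an oracle.

There are an oracle `O` and a projection- and embedding-closed class in which the number of
relevant variables is at most the size, such that the class is learnable in the
infinite-attribute model by an algorithm with the oracle, but not attribute-efficiently learnable
by any algorithm with the oracle. So no relativizing argument proves the converse asked for in Q1.

Proof idea. For some lengths `s` there is a Boolean function `g` of `s` bits (a row); the concepts
are the functions `x ↦ g (x (z 1), ..., x (z s))`, where each `z i` is a variable or a constant,
and `s` bounds the size. The oracle takes a list of mistakes and an example of the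
infinite-attribute model and gives the weighted majority vote of all hypotheses (positions of
names in the list, instead of variables); the weight of a hypothesis is halved at every new
pattern of values until it has shown `(s + 1) ^ 2 + √R` different patterns, where `R` is the
number of names in the list; after that it survives with its whole weight if and only if it
agrees with the row. So the learner which asks the oracle about its list of mistakes makes few
mistakes, while the answers of the oracle depend on the row only if there was such a number of
different patterns, all in agreement with the row. A learner which makes few mistakes in the
number of variables never asks such a question: its examples are the rows `j` of a `t`-wise
independent matrix with `p ^ t` columns (the values at `j` of the polynomials of degree less than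
`t` over the field with `p` elements), and all labels are the opposite of its predictions. By a
count of the places and of the rows there are a place and a row such that all labels are right
and no question of the learner depends on the row. The learners are defeated one after the other.
-/

namespace Pool.Agent.Results.MP_8ec85b_lc.OracleSeparation

open Pool.Agent.Work.MP_8ec85b_lc Pool.Agent.Work.MP_8ec85b_lc_or

theorem result :
    ∃ (O : D → Bool) (C : ConceptClass), C.EmbeddingClosed ∧ C.ProjectionClosed ∧
      C.FewRelevant ∧ IALearnableO O C ∧ ¬ AELearnableO O C := by
  obtain ⟨H, hH⟩ := exists_rows
  exact ⟨oracle H, cls H, cls_embedding H, cls_projection H, cls_fewRelevant H, ia_learnable H,
    not_ae hH⟩

end Pool.Agent.Results.MP_8ec85b_lc.OracleSeparation
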